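import Mathlib
import Pool.Agent.Lib.AndoD.Fin

set_option autoImplicit false

namespace Pool.Agent.Results.MP_b1c9a2_co.StrongAndo

/-- Every finite simple cubic graph (connected or not; bridges, triangles and cycles of length four
allowed) has a Strong Ando colouring, and moreover one all of whose monochromatic components have
at most four vertices. -/
theorem result {V : Type*} [Fintype V] [DecidableEq V] (G : SimpleGraph V) [DecidableRel G.Adj]
    (hG : G.IsRegularOfDegree 3) :
    ∃ S : Finset V,
      S.card = Sᶜ.card ∧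
      Nonempty (G.induce (S : Set V) ≃g G.induce ((Sᶜ : Finset V) : Set V)) ∧
      (G.induce (S : Set V)).IsAcyclic ∧
      (G.induce ((Sᶜ : Finset V) : Set V)).IsAcyclic ∧
      (∀ v ∈ S, (S.filter (fun w => G.Adj v w)).card ≤ 2) ∧
      (∀ v ∈ Sᶜ, (Sᶜ.filter (fun w => G.Adj v w)).card ≤ 2) ∧
      (∀ c : (G.induce (S : Set V)).ConnectedComponent, c.supp.ncard ≤ 4) ∧
      (∀ c : (G.induce ((Sᶜ : Finset V) : Set V)).ConnectedComponent, c.supp.ncard ≤ 4) :=
  Pool.Agent.Lib.AndoD.good_cubic V G hG

end Pool.Agent.Results.MP_b1c9a2_co.StrongAndo
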